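import Mathlib

set_option autoImplicit false

namespace Pool.Agent.H340R2.LW

open Polynomial Complex

theorem exists_common_den (s : Finset ℂ) (hs : ∀ a ∈ s, IsAlgebraic ℤ a) :
    ∃ D : ℤ, D ≠ 0 ∧ ∀ a ∈ s, IsIntegral ℤ ((D : ℂ) * a) := by
  classical
  induction s using Finset.induction_on with
  | empty => exact ⟨1, one_ne_zero, by simp⟩
  | insert b s hb ih =>
    obtain ⟨D, hD, hDs⟩ := ih (fun a ha => hs a (Finset.mem_insert_of_mem ha))
    obtain ⟨y, hy, hyb⟩ := (hs b (Finset.mem_insert_self b s)).exists_integral_multiple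
    refine ⟨D * y, mul_ne_zero hD hy, fun a ha => ?_⟩
    rcases Finset.mem_insert.mp ha with rfl | ha
    · have h1 : IsIntegral ℤ (D • (y • a)) := hyb.smul D
      simpa [zsmul_eq_mul, mul_assoc] using h1
    · have h1 : IsIntegral ℤ (y • ((D : ℂ) * a)) := (hDs a ha).smul y
      have h2 : ((D * y : ℤ) : ℂ) * a = y • ((D : ℂ) * a) := by
        rw [zsmul_eq_mul]; push_cast; ring
      rw [h2]; exact h1

theorem exists_poly_one (a : ℂ) (ha : IsAlgebraic ℤ a) (ha0 : a ≠ 0) :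
    ∃ f : ℤ[X], f.eval 0 ≠ 0 ∧ aeval a f = 0 := by
  obtain ⟨p, hp, hpa⟩ := ha
  obtain ⟨q, hq, hq2⟩ := Polynomial.exists_eq_pow_rootMultiplicity_mul_and_not_dvd p hp 0
  refine ⟨q, ?_, ?_⟩
  · intro h0
    exact hq2 (Polynomial.dvd_iff_isRoot.mpr h0)
  · rw [hq] at hpa
    simp only [map_mul, map_pow, aeval_X, map_zero, sub_zero] at hpa
    rcases mul_eq_zero.mp hpa with h | h
    · exact absurd (by by_contra h0; exact (pow_ne_zero _ h0) h) ha0
    · exact h

theorem exists_poly (s : Finset ℂ) (hs : ∀ a ∈ s, IsAlgebraic ℤ a) (hs0 : ∀ a ∈ s, a ≠ 0) :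
    ∃ f : ℤ[X], f.eval 0 ≠ 0 ∧ ∀ a ∈ s, a ∈ f.aroots ℂ := by
  classical
  induction s using Finset.induction_on with
  | empty => exact ⟨1, by simp, by simp⟩
  | insert b s hb ih =>
    obtain ⟨f, hf, hfs⟩ := ih (fun a ha => hs a (Finset.mem_insert_of_mem ha))
      (fun a ha => hs0 a (Finset.mem_insert_of_mem ha))
    obtain ⟨g, hg, hgb⟩ := exists_poly_one b (hs b (Finset.mem_insert_self b s))
      (hs0 b (Finset.mem_insert_self b s))
    have hf0 : f ≠ 0 := by rintro rfl; simp at hf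
    have hg0 : g ≠ 0 := by rintro rfl; simp at hg
    have hfg : f * g ≠ 0 := mul_ne_zero hf0 hg0
    refine ⟨f * g, by simp [hf, hg], fun a ha => ?_⟩
    rw [Polynomial.mem_aroots]
    refine ⟨hfg, ?_⟩
    rcases Finset.mem_insert.mp ha with rfl | ha
    · simp [hgb]
    · have := (Polynomial.mem_aroots.mp (hfs a ha)).2
      simp [this]

theorem integral_aux (D : ℤ) (a : ℂ) (hDa : IsIntegral ℤ ((D : ℂ) * a)) (g : ℤ[X]) (N : ℕ)
    (hN : g.natDegree ≤ N) : IsIntegral ℤ ((D : ℂ) ^ N * aeval a g) := by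
  rw [Polynomial.aeval_eq_sum_range, Finset.mul_sum]
  refine IsIntegral.sum _ (fun k hk => ?_)
  have hk' : k ≤ N := (Nat.lt_succ_iff.mp (Finset.mem_range.mp hk)).trans hN
  have h1 : (D : ℂ) ^ N * (g.coeff k • a ^ k) =
      ((D ^ (N - k) * g.coeff k : ℤ) : ℂ) * ((D : ℂ) * a) ^ k := by
    rw [zsmul_eq_mul]
    push_cast
    have : (D : ℂ) ^ N = (D : ℂ) ^ (N - k) * (D : ℂ) ^ k := by
      rw [← pow_add, Nat.sub_add_cancel hk']
    rw [this, mul_pow]; ring
  rw [h1]
  refine IsIntegral.mul ?_ (hDa.pow k)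
  exact isIntegral_algebraMap (R := ℤ) (A := ℂ) (x := (D ^ (N - k) * g.coeff k : ℤ))

theorem core (L : IntermediateField ℚ ℂ) [FiniteDimensional ℚ L] [IsGalois ℚ L]
    (s : Finset L) (hs0 : ∀ a ∈ s, a ≠ 0) (hsG : ∀ σ : L ≃ₐ[ℚ] L, ∀ a ∈ s, σ a ∈ s)
    (c : L → ℤ) (hc : ∀ σ : L ≃ₐ[ℚ] L, ∀ a, c (σ a) = c a) (w : ℤ) (hw : w ≠ 0)
    (h : (w : ℂ) + ∑ a ∈ s, (c a : ℂ) * Complex.exp (a : ℂ) = 0) : False := by
  classical
  have halg : ∀ a : L, IsAlgebraic ℤ (a : ℂ) := fun a => by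
    have h1 : IsAlgebraic ℚ a := Algebra.IsAlgebraic.isAlgebraic a
    have h2 : IsAlgebraic ℚ (a : ℂ) := h1.algebraMap (A := ℂ)
    exact (IsFractionRing.isAlgebraic_iff ℤ ℚ ℂ).mpr h2
  set sC : Finset ℂ := s.image (fun a : L => (a : ℂ)) with hsC
  have hmemC : ∀ a ∈ s, (a : ℂ) ∈ sC := fun a ha => Finset.mem_image_of_mem _ ha
  obtain ⟨D, hD0, hD⟩ := exists_common_den sC (by
    intro a ha
    obtain ⟨b, -, rfl⟩ := Finset.mem_image.mp ha
    exact halg b)
  obtain ⟨f, hf0, hf⟩ := exists_poly sC (by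
    intro a ha
    obtain ⟨b, -, rfl⟩ := Finset.mem_image.mp ha
    exact halg b) (by
    intro a ha
    obtain ⟨b, hb, rfl⟩ := Finset.mem_image.mp ha
    simpa using hs0 b hb)
  obtain ⟨C, hC⟩ := LindemannWeierstrass.exp_polynomial_approx f hf0
  set M : ℝ := ∑ a ∈ s, |(c a : ℝ)| with hM
  set B : ℝ := |(D : ℝ)| ^ f.natDegree * |C| with hB
  -- limit
  have hlim : Filter.Tendsto (fun n : ℕ => M * B * (B ^ n / (n.factorial : ℝ))) Filter.atTop
      (nhds (M * B * 0)) :=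
    (FloorSemiring.tendsto_pow_div_factorial_atTop B).const_mul (M * B)
  rw [mul_zero] at hlim
  have hev : ∀ᶠ n : ℕ in Filter.atTop, M * B * (B ^ n / (n.factorial : ℝ)) < 1 :=
    hlim.eventually (gt_mem_nhds one_pos)
  obtain ⟨n₀, hn₀⟩ := Filter.eventually_atTop.mp hev
  obtain ⟨p, hpge, hp⟩ := Nat.exists_infinite_primes
    (n₀ + 1 + (f.eval 0).natAbs + w.natAbs + D.natAbs + 1)
  obtain ⟨n, hpn, g, hgdeg, hg⟩ := hC p (by omega) hp
  set N : ℕ := p * f.natDegree with hN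
  have hgN : g.natDegree ≤ N := by omega
  -- the element of L
  set J : L := ∑ a ∈ s, (c a : L) * ((D : L) ^ N * aeval a g) with hJ
  have hJfix : ∀ σ : L ≃ₐ[ℚ] L, σ J = J := by
    intro σ
    have himg : s.image σ = s := by
      apply Finset.eq_of_subset_of_card_le
      · intro b hb
        obtain ⟨a, ha, rfl⟩ := Finset.mem_image.mp hb
        exact hsG σ a ha
      · rw [Finset.card_image_of_injective _ σ.injective]
    have h1 : σ J = ∑ a ∈ s, (c (σ a) : L) * ((D : L) ^ N * aeval (σ a) g) := by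
      rw [hJ, map_sum]
      refine Finset.sum_congr rfl (fun a _ => ?_)
      rw [map_mul, map_mul, map_pow, map_intCast, map_intCast, hc σ a]
      congr 2
      have := Polynomial.aeval_algHom_apply (σ.toAlgHom.restrictScalars ℤ : L →ₐ[ℤ] L) a g
      simpa using this.symm
    rw [h1]
    conv_rhs => rw [hJ, ← himg]
    rw [Finset.sum_image (fun a _ b _ hab => σ.injective hab)]
  have hJrat : ∃ q : ℚ, algebraMap ℚ L q = J := by
    have := (IsGalois.mem_bot_iff_fixed (F := ℚ) (E := L) J).mpr (fun σ => hJfix σ)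
    exact IntermediateField.mem_bot.mp this
  obtain ⟨q, hq⟩ := hJrat
  have hJC : (J : ℂ) = ∑ a ∈ s, (c a : ℂ) * ((D : ℂ) ^ N * aeval (a : ℂ) g) := by
    rw [hJ]
    push_cast
    refine Finset.sum_congr rfl (fun a _ => ?_)
    congr 2
    have := Polynomial.aeval_algHom_apply (L.val.restrictScalars ℤ : L →ₐ[ℤ] ℂ) a g
    simpa using this.symm
  have hJint : IsIntegral ℤ (J : ℂ) := by
    rw [hJC]
    refine IsIntegral.sum _ (fun a ha => ?_)
    exact (isIntegral_algebraMap (R := ℤ) (A := ℂ) (x := c a)).mul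
      (integral_aux D a (hD a (hmemC a ha)) g N hgN)
  have hqC : ((q : ℚ) : ℂ) = (J : ℂ) := by
    rw [← hq]; rfl
  have hqint : IsIntegral ℤ q := by
    rw [← hqC] at hJint
    have : IsIntegral ℤ (algebraMap ℚ ℂ q) := hJint
    exact (isIntegral_algebraMap_iff (algebraMap ℚ ℂ).injective).mp this
  obtain ⟨j, hj⟩ := IsIntegrallyClosed.isIntegral_iff.mp hqint
  have hjC : (j : ℂ) = (J : ℂ) := by
    rw [← hqC, ← hj]; simp
  -- the integer
  have hI : (D ^ N * n * w + p * j : ℤ) ≠ 0 := by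
    intro h0
    have hdvd : (p : ℤ) ∣ D ^ N * n * w := by
      have : D ^ N * n * w = - (p * j) := by linarith
      rw [this]; exact (dvd_mul_right _ _).neg_right
    have hpp : Prime (p : ℤ) := Nat.prime_iff_prime_int.mp hp
    rcases hpp.dvd_or_dvd hdvd with h1 | h1
    · rcases hpp.dvd_or_dvd h1 with h2 | h2
      · have h3 := hpp.dvd_of_dvd_pow h2
        have := Int.natAbs_dvd_natAbs.mpr h3
        have := Nat.le_of_dvd (Int.natAbs_pos.mpr hD0) this
        simp at this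
        omega
      · exact hpn h2
    · have := Int.natAbs_dvd_natAbs.mpr h1
      have := Nat.le_of_dvd (Int.natAbs_pos.mpr hw) this
      simp at this
      omega
  have hI1 : (1 : ℝ) ≤ ‖((D ^ N * n * w + p * j : ℤ) : ℂ)‖ := by
    rw [Complex.norm_intCast]
    exact_mod_cast Int.one_le_abs hI
  have hkey : ((D ^ N * n * w + p * j : ℤ) : ℂ) =
      (D : ℂ) ^ N * ∑ a ∈ s, -((c a : ℂ) * ((n : ℂ) * Complex.exp a - p * aeval (a : ℂ) g)) := by
    have h1 : (w : ℂ) = - ∑ a ∈ s, (c a : ℂ) * Complex.exp (a : ℂ) := by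
      linear_combination h
    push_cast
    rw [hjC, hJC, h1]
    rw [← Finset.sum_neg_distrib, Finset.mul_sum, Finset.mul_sum, Finset.mul_sum,
      ← Finset.sum_add_distrib]
    refine Finset.sum_congr rfl (fun a _ => ?_)
    ring
  have hbound : ‖((D ^ N * n * w + p * j : ℤ) : ℂ)‖ ≤
      |(D : ℝ)| ^ N * ∑ a ∈ s, |(c a : ℝ)| * (|C| ^ p / ((p - 1).factorial : ℝ)) := by
    rw [hkey, norm_mul, norm_pow, Complex.norm_intCast]
    refine mul_le_mul_of_nonneg_left ?_ (by positivity)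
    refine (norm_sum_le _ _).trans (Finset.sum_le_sum (fun a ha => ?_))
    rw [norm_neg, norm_mul, Complex.norm_intCast]
    refine mul_le_mul_of_nonneg_left ?_ (abs_nonneg _)
    have h2 := hg (hf a (hmemC a ha))
    have h3 : ((n : ℂ) * Complex.exp a - p * aeval (a : ℂ) g) =
        n • Complex.exp a - p • aeval (a : ℂ) g := by
      simp [zsmul_eq_mul, nsmul_eq_mul]
    rw [h3]
    refine h2.trans ?_
    refine div_le_div_of_nonneg_right ?_ (by positivity)
    rw [← abs_pow]; exact le_abs_self _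
  have hfin : (1 : ℝ) ≤ M * B * (B ^ (p - 1) / ((p - 1).factorial : ℝ)) := by
    refine (hI1.trans hbound).trans (le_of_eq ?_)
    rw [← Finset.sum_mul, ← hM]
    have hp1 : B ^ p = B * B ^ (p - 1) := by
      rw [← pow_succ', Nat.sub_add_cancel hp.one_le]
    have h4 : |(D : ℝ)| ^ N * |C| ^ p = B ^ p := by
      rw [hB, mul_pow, ← pow_mul, hN, mul_comm p]
    calc |(D : ℝ)| ^ N * (M * (|C| ^ p / ((p - 1).factorial : ℝ)))
        = M * (|(D : ℝ)| ^ N * |C| ^ p) / ((p - 1).factorial : ℝ) := by ring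
      _ = M * (B * B ^ (p - 1)) / ((p - 1).factorial : ℝ) := by rw [h4, hp1]
      _ = _ := by ring
  have := hn₀ (p - 1) (by omega)
  linarith

end Pool.Agent.H340R2.LW
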